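import Pool.Agent.helper26.IM.SpecA

/-! Project im:, module STX (helper70). -/

set_option autoImplicit false

open Finset

namespace Pool.Agent.helper26.IM

open Pool.Agent.RRank Pool.Agent.helper35.MR

theorem STX_eqn {K X Y Z : Type} [Field K] (T : X → Y → Z → K) (N q : ℕ)
    (α : X → Fin N → Fin q → K) (β : Y → Fin N → Fin q → K) (γ : Z → Fin N → Fin q → K)
    (𝓊 : Ultrafilter X) (hE : Eqn N q T α β γ) (y : Y) (z : Z) :
    (UF.mk 𝓊 (fun x => T x y z) : UF 𝓊 fun _ : X => K) ^ N +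
      ∑ i, (∑ s, UF.mk 𝓊 (fun x => α x i s) * algebraMap K (UF 𝓊 fun _ : X => K) (β y i s) *
        algebraMap K (UF 𝓊 fun _ : X => K) (γ z i s)) *
        (UF.mk 𝓊 (fun x => T x y z) : UF 𝓊 fun _ : X => K) ^ (i : ℕ) = 0 := by
  have h1 : (fun x => T x y z : ∀ _ : X, K) ^ N +
      ∑ i, (∑ s, (fun x => α x i s : ∀ _ : X, K) * (fun _ => β y i s : ∀ _ : X, K) *
        (fun _ => γ z i s : ∀ _ : X, K)) * (fun x => T x y z : ∀ _ : X, K) ^ (i : ℕ) = 0 := by
    funext x
    simp only [Pi.add_apply, Pi.pow_apply, Finset.sum_apply, Pi.mul_apply, Pi.zero_apply]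
    exact hE x y z
  have h2 := congrArg (UF.mk 𝓊 : (∀ _ : X, K) →+* UF 𝓊 fun _ : X => K) h1
  simp only [map_add, map_pow, map_sum, map_mul, map_zero] at h2
  exact h2

theorem STX_dst (hDST : DST_stmt) {K F : Type} [Field K] [Field F] [Algebra K F] (A : Subalgebra K F)
    {N' : ℕ} (e : Fin N' → Fin N' → F) (heA : ∀ j k, e j k ∈ A) (H : Type) (h : H → A →ₐ[K] K)
    (hsep : ∀ (a : F) (ha : a ∈ A),
      a ∈ Submodule.span K (Set.range fun p : Fin N' × Fin N' => e p.1 p.2) → a ≠ 0 →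
      ∃ i, h i ⟨a, ha⟩ ≠ 0) (n : ℕ) (hS : S3 (fun i j k => h i ⟨e j k, heA j k⟩) n) :
    S3 (fun (f : Module.Dual K F) j k => f (e j k)) n := by
  have hext : ∀ i : H, ∃ g : Module.Dual K F, ∀ (a : F) (ha : a ∈ A), g a = h i ⟨a, ha⟩ := by
    intro i
    let h0 : Subalgebra.toSubmodule A →ₗ[K] K := (h i).toLinearMap
    obtain ⟨g, hg⟩ := LinearMap.exists_extend h0
    exact ⟨g, fun a ha => LinearMap.congr_fun hg ⟨a, ha⟩⟩
  choose g hg' using hext
  refine hDST K F (Fin N') (Fin N') e H g ?_ n ?_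
  · intro a ha ha0
    have haA : a ∈ A := by
      have h2 : Submodule.span K (Set.range fun p : Fin N' × Fin N' => e p.1 p.2) ≤
          Subalgebra.toSubmodule A := by
        rw [Submodule.span_le]
        rintro _ ⟨p, rfl⟩
        exact heA _ _
      exact h2 ha
    obtain ⟨i, hi⟩ := hsep a haA ha ha0
    exact ⟨i, by rw [hg' _ a haA]; exact hi⟩
  · have h3 : (fun (i : H) (j k : Fin N') => g i (e j k)) =
        fun (i : H) (j k : Fin N') => h i ⟨e j k, heA j k⟩ := by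
      funext i j k
      exact hg' i _ (heA j k)
    rw [h3]
    exact hS

/-- STX: stage X. -/
theorem STX (hFSD : FSD_stmt) (hCPX : CPX_stmt) (hSPR : SPR_stmt) (hDST : DST_stmt) (hROW : ROW_stmt)
    (hUPL : UPL_stmt) : STX_stmt := by
  intro l fy fz K _ _ X Y Z T N q α β γ 𝓊 hnf hE hfy hfz hFS
  classical
  -- the germs
  let F : Type := UF 𝓊 fun _ : X => K
  let E : Fin N × Fin q ≃ Fin (N * q) := finProdFinEquiv
  let αg : Fin (N * q) → F := fun p => UF.mk 𝓊 (fun x => α x (E.symm p).1 (E.symm p).2)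
  obtain ⟨m, hm⟩ := hSPR K F (N * q) N αg
  refine hUPL l N q (max m (max (Set.range β).ncard (Set.range γ).ncard)) True fy fz fun n => ?_
  obtain ⟨G, N', hC⟩ := hCPX n
  obtain ⟨f, y, z, hr⟩ := hC K K (RingHom.id K) (Module.Dual K F) Y Z
    (fun f y z => f (UF.mk 𝓊 (fun x => T x y z))) (hFSD K X Y Z T 𝓊 hFS G)
  simp only [RingHom.id_apply] at hr
  -- the elements
  let e : Fin N' × Fin N' → F := fun p => UF.mk 𝓊 (fun x => T x (y p.1) (z p.2))
  have hαmem : ∀ (i : Fin N) (s : Fin q), (UF.mk 𝓊 (fun x => α x i s) : F) = αg (E (i, s)) := by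
    intro i s
    simp only [αg, Equiv.symm_apply_apply]
  obtain ⟨S, A, hS, hαA, heA, hsep⟩ := hm (Fin N' × Fin N') e (by
    intro p
    refine ⟨fun i => ∑ s, UF.mk 𝓊 (fun x => α x i s) * algebraMap K F (β (y p.1) i s) *
        algebraMap K F (γ (z p.2) i s), fun i => ?_, STX_eqn T N q α β γ 𝓊 hE (y p.1) (z p.2)⟩
    refine Submodule.sum_mem _ fun s _ => ?_
    have h0 : (UF.mk 𝓊 (fun x => α x i s) : F) * algebraMap K F (β (y p.1) i s) *
        algebraMap K F (γ (z p.2) i s) = (β (y p.1) i s * γ (z p.2) i s) • αg (E (i, s)) := by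
      rw [Algebra.smul_def, map_mul, hαmem]
      ring
    rw [h0]
    exact Submodule.smul_mem _ _ (Submodule.subset_span ⟨_, rfl⟩))
  have hαA' : ∀ (i : Fin N) (s : Fin q), (UF.mk 𝓊 (fun x => α x i s) : F) ∈ A := by
    intro i s
    rw [hαmem]
    exact hαA _
  let H : Type := {h : A →ₐ[K] K // ∃ s ∈ S, ∀ i (hi : αg i ∈ A), h ⟨αg i, hi⟩ = s i}
  have heA' : ∀ (j k : Fin N'), (UF.mk 𝓊 (fun x => T x (y j) (z k)) : F) ∈ A := fun j k => heA (j, k)
  refine ⟨K, inferInstance, inferInstance, H, Fin N', Fin N',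
    fun h j k => h.1 ⟨_, heA' j k⟩, fun h i s => h.1 ⟨_, hαA' i s⟩, fun j => β (y j),
    fun k => γ (z k), ?_, ?_, ?_, ?_, ?_, ?_⟩
  · intro hS3
    have h1 := STX_dst hDST A (fun j k => e (j, k)) heA' H (fun h => h.1) (by
      intro a haA ha ha0
      obtain ⟨h, hh, hh2⟩ := hsep a haA ha ha0
      exact ⟨⟨h, hh⟩, hh2⟩) n hS3
    exact hr (h1.comp f id id)
  · intro hfull
    have h1 : HasFull (fun (h : A →ₐ[K] K) (j k : Fin N') => h ⟨_, heA' j k⟩) l :=
      HasFull.of_comp (fun h : H => h.1) id id hfull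
    have h2 := hROW K X (Fin N') (Fin N') (fun x j k => T x (y j) (z k)) 𝓊 A heA' l h1
    exact hnf (HasFull.of_comp id y z h2)
  · intro h j k
    have h1 := STX_eqn T N q α β γ 𝓊 hE (y j) (z k)
    have h2 : (⟨_, heA' j k⟩ : A) ^ N + ∑ i, (∑ s, (⟨_, hαA' i s⟩ : A) * algebraMap K A (β (y j) i s) *
        algebraMap K A (γ (z k) i s)) * (⟨_, heA' j k⟩ : A) ^ (i : ℕ) = 0 := by
      apply Subtype.ext
      simp only [AddSubmonoidClass.coe_finsetSum, Subalgebra.coe_add, Subalgebra.coe_pow,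
        Subalgebra.coe_mul, Subalgebra.coe_algebraMap, Subalgebra.coe_zero]
      exact h1
    have h3 := congrArg h.1 h2
    simpa only [map_add, map_pow, map_sum, map_mul, map_zero, AlgHom.commutes, Algebra.algebraMap_self,
      RingHom.id_apply] using h3
  · intro _
    have hsub : Set.range (fun (h : H) (i : Fin N) (s : Fin q) => h.1 ⟨_, hαA' i s⟩) ⊆
        (S.image fun (v : Fin (N * q) → K) (i : Fin N) (s : Fin q) => v (E (i, s)) :
          Finset (Fin N → Fin q → K)) := by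
      rintro _ ⟨h, rfl⟩
      obtain ⟨v, hv, hv2⟩ := h.2
      rw [Finset.coe_image]
      refine ⟨v, hv, ?_⟩
      funext i s
      dsimp only
      rw [← hv2 (E (i, s)) (hαA _)]
      congr 1
      apply Subtype.ext
      exact (hαmem i s).symm
    refine ⟨(Finset.finite_toSet _).subset hsub, ?_⟩
    refine (Set.ncard_le_ncard hsub (Finset.finite_toSet _)).trans ?_
    rw [Set.ncard_coe_finset]
    exact (Finset.card_image_le.trans hS).trans (le_max_left _ _)
  · intro hy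
    have hsub : Set.range (fun j => β (y j)) ⊆ Set.range β := by
      rintro _ ⟨j, rfl⟩
      exact ⟨y j, rfl⟩
    exact ⟨(hfy hy).subset hsub, (Set.ncard_le_ncard hsub (hfy hy)).trans
      ((le_max_left _ _).trans (le_max_right _ _))⟩
  · intro hz
    have hsub : Set.range (fun k => γ (z k)) ⊆ Set.range γ := by
      rintro _ ⟨j, rfl⟩
      exact ⟨z j, rfl⟩
    exact ⟨(hfz hz).subset hsub, (Set.ncard_le_ncard hsub (hfz hz)).trans
      ((le_max_right _ _).trans (le_max_right _ _))⟩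

end Pool.Agent.helper26.IM
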